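import Pool.Agent.H81.D3.Targets

/-! RSE: rescaled functions of caps, in the class (board `d3n_modules`). The first part is the
proof of RSC (Pool/Agent/H88/G/RSC.lean) with the explicit function. -/

set_option autoImplicit false

namespace Pool.Agent.H12.D3

open Pool.Agent.H83.G MeasureTheory Set
open scoped ENNReal NNReal RealInnerProductSpace

variable {m : ℕ}

/-- the product of two bumps -/
private theorem bump_mul {L : ℕ} {φ φ' : E m → ℂ} (hφ : φ ∈ Bp m L) (hφ' : φ' ∈ Bp m L)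
    (η' : E m) {s' : ℝ} (hs0 : 0 < s') (hs1 : s' ≤ 1) :
    (fun u => (((2 ^ L : ℝ)⁻¹ : ℝ) : ℂ) * (φ' u * φ (s' • u + η'))) ∈ Bp m L := by
  have hcomp : ContDiff ℝ (⊤ : ℕ∞) fun u : E m => φ (s' • u + η') :=
    hφ.1.comp ((contDiff_const_smul s').add contDiff_const)
  have hmul : ContDiff ℝ (⊤ : ℕ∞) fun u : E m => φ' u * φ (s' • u + η') := hφ'.1.mul hcomp
  refine ⟨contDiff_const.mul hmul, fun x hx => ?_, fun j hj x => ?_⟩
  · simp only
    rw [hφ'.2.1 x hx, zero_mul, mul_zero]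
  · have hd : ∀ i ≤ L, ∀ x, ‖iteratedFDeriv ℝ i (fun u : E m => φ (s' • u + η')) x‖ ≤ 1 := by
      intro i hi x
      have h1 : (fun u : E m => φ (s' • u + η')) = fun u => (fun v => φ (v + η')) (s' • u) := rfl
      have h2 : ContDiff ℝ i fun v : E m => φ (v + η') :=
        (hφ.1.comp (contDiff_id.add contDiff_const)).of_le (by exact_mod_cast le_top)
      rw [h1, iteratedFDeriv_comp_const_smul s' h2]
      simp only
      rw [iteratedFDeriv_comp_add_right]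
      rw [norm_smul, norm_pow, Real.norm_eq_abs, abs_of_pos hs0]
      calc s' ^ i * ‖iteratedFDeriv ℝ i φ (s' • x + η')‖ ≤ 1 * 1 := by
            apply mul_le_mul (pow_le_one₀ hs0.le hs1) (hφ.2.2 i hi _) (norm_nonneg _) zero_le_one
        _ = 1 := one_mul 1
    have h3 : iteratedFDeriv ℝ j (fun u => (((2 ^ L : ℝ)⁻¹ : ℝ) : ℂ) *
        (φ' u * φ (s' • u + η'))) x =
        (((2 ^ L : ℝ)⁻¹ : ℝ) : ℂ) • iteratedFDeriv ℝ j (fun u => φ' u * φ (s' • u + η')) x := by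
      have : (fun u => (((2 ^ L : ℝ)⁻¹ : ℝ) : ℂ) * (φ' u * φ (s' • u + η'))) =
          (((2 ^ L : ℝ)⁻¹ : ℝ) : ℂ) • fun u => (φ' u * φ (s' • u + η')) := rfl
      rw [this]
      exact iteratedFDeriv_const_smul_apply (hmul.of_le (by exact_mod_cast le_top)).contDiffAt
    rw [h3, norm_smul]
    have h4 := norm_iteratedFDeriv_mul_le (𝕜 := ℝ) (f := φ') (g := fun u => φ (s' • u + η'))
      (hφ'.1.of_le (by exact_mod_cast le_top : (j : WithTop ℕ∞) ≤ ((⊤ : ℕ∞) : WithTop ℕ∞)))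
      (hcomp.of_le (by exact_mod_cast le_top : (j : WithTop ℕ∞) ≤ ((⊤ : ℕ∞) : WithTop ℕ∞)))
      x le_rfl
    have h5 : ∑ i ∈ Finset.range (j + 1), (j.choose i : ℝ) * ‖iteratedFDeriv ℝ i φ' x‖ *
        ‖iteratedFDeriv ℝ (j - i) (fun u => φ (s' • u + η')) x‖ ≤ 2 ^ L := by
      calc _ ≤ ∑ i ∈ Finset.range (j + 1), (j.choose i : ℝ) * 1 * 1 := by
            apply Finset.sum_le_sum
            intro i hi
            have hij : i ≤ j := Nat.lt_succ_iff.1 (Finset.mem_range.1 hi)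
            have a1 := hφ'.2.2 i (hij.trans hj) x
            have a2 := hd (j - i) ((Nat.sub_le _ _).trans hj) x
            gcongr
        _ = 2 ^ j := by
            simp only [mul_one]
            rw [← Nat.cast_sum, Nat.sum_range_choose]
            push_cast
            rfl
        _ ≤ 2 ^ L := pow_le_pow_right₀ (by norm_num) hj
    have h6 : ‖((((2 ^ L : ℝ)⁻¹ : ℝ)) : ℂ)‖ = (2 ^ L : ℝ)⁻¹ := by
      rw [Complex.norm_real, Real.norm_eq_abs, abs_of_pos (by positivity)]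
    rw [h6]
    calc (2 ^ L : ℝ)⁻¹ * _ ≤ (2 ^ L : ℝ)⁻¹ * 2 ^ L := by
          apply mul_le_mul_of_nonneg_left (h4.trans h5) (by positivity)
      _ = 1 := inv_mul_cancel₀ (by positivity)

private theorem TF_const_mul (c : ℂ) (G : Z m → ℂ) (z : Z m) :
    TF (fun ζ => c * G ζ) z = c * TF G z := by
  unfold TF
  rw [← integral_const_mul]
  congr 1
  ext ζ
  ring

private theorem TC_const_mul (c : ℂ) (G : Z m → ℂ) (h : TC G) : TC (fun ζ => c * G ζ) :=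
  ⟨contDiff_const.mul h.1, h.2.mul_left⟩

theorem rse_explicit (hLOA : T_LOA) (hLOI : T_LOI) (hSCL : T_SCL) (hCPS : T_CPS) (m L : ℕ)
    (κ R A : ℝ) (G : Z m → ℂ) (φ : E m → ℂ) (η : E m) (s : ℝ) (hφ : φ ∈ Bp m L) (hκ0 : 0 ≤ κ)
    (hκ : κ ≤ 1 / 2) (hA : 0 < A) (hs : 0 < s) (hs1 : s ≤ 1) (hRs : 1 ≤ R * s ^ 2)
    (hG : Cls L κ R A G) :
    Cls L κ (R * s ^ 2) (2 ^ L * A)
      (fun ζ => ((s ^ (m + 2) : ℝ) : ℂ) * (cp φ η s (Ld η s ζ) * G (Ld η s ζ))) ∧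
    (∀ z, TF (fun ζ => ((s ^ (m + 2) : ℝ) : ℂ) * (cp φ η s (Ld η s ζ) * G (Ld η s ζ)))
      (Lo η s z) = TP φ η s G z) ∧
    ∫ ζ, ‖((s ^ (m + 2) : ℝ) : ℂ) * (cp φ η s (Ld η s ζ) * G (Ld η s ζ))‖ ^ 2 =
      s ^ (m + 2) * ∫ ζ, ‖cp φ η s ζ * G ζ‖ ^ 2 := by
  obtain ⟨hA1, hA2, hA3, hA4, hA5, hA6⟩ := hLOA m
  obtain ⟨hI1, hI2, hI3, hI4, hI5, hI6⟩ := hLOI m η s hs
  have hs2 : 0 < s ^ 2 := by positivity
  have hR : 0 < R := by
    by_contra hcon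
    push Not at hcon
    nlinarith
  have hquart : ∀ ζ, G ζ ≠ 0 → 1 / 4 ≤ ζ.1 := by
    intro ζ hζ
    have := (hG.2.1 ζ hζ).1
    linarith
  -- the function
  let H : Z m → ℂ := fun ζ => cp φ η s ζ * G ζ
  have hH : TC H := hCPS m φ η s G hφ.1 hs hG.1 hquart
  obtain ⟨hH1, hH2⟩ := hSCL m η s H hs hH
  let c : ℂ := ((s ^ (m + 2) : ℝ) : ℂ)
  have hcne : c ≠ 0 := by
    have : (s ^ (m + 2) : ℝ) ≠ 0 := by positivity
    exact Complex.ofReal_ne_zero.2 this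
  let G' : Z m → ℂ := fun ζ => c * H (Ld η s ζ)
  have hG' : TC G' := TC_const_mul c _ hH1
  have hcp : ∀ ζ : Z m, ζ.1 ≠ 0 → ∀ (Φ : E m → ℂ) (η' : E m) (s' : ℝ),
      cp Φ (η + s • η') (s * s') (Ld η s ζ) = Φ (s'⁻¹ • (ζ.1⁻¹ • ζ.2.1 - η')) := by
    intro ζ hζ Φ η' s'
    obtain ⟨h1, h2, -⟩ := hA6 η s ζ hζ
    unfold cp
    congr 1
    have h3 : (Ld η s ζ).1⁻¹ • (Ld η s ζ).2.1 - (η + s • η') =
        s • (ζ.1⁻¹ • ζ.2.1 - η') := by
      rw [← sub_sub, h2, smul_sub]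
    rw [h3, smul_smul, mul_inv, mul_right_comm, inv_mul_cancel₀ hs.ne', one_mul]
  have hcp0 : ∀ ζ : Z m, ζ.1 ≠ 0 → ∀ (Φ : E m → ℂ),
      cp Φ η s (Ld η s ζ) = Φ (ζ.1⁻¹ • ζ.2.1) := by
    intro ζ hζ Φ
    have := hcp ζ hζ Φ 0 1
    rw [smul_zero, add_zero, mul_one, inv_one, one_smul, sub_zero] at this
    exact this
  refine ⟨⟨hG', ?_, ?_⟩, ?_, ?_⟩
  · -- support
    intro ζ hζ
    have h1 : H (Ld η s ζ) ≠ 0 := right_ne_zero_of_mul hζ
    have h2 : G (Ld η s ζ) ≠ 0 := right_ne_zero_of_mul h1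
    have h3 : cp φ η s (Ld η s ζ) ≠ 0 := left_ne_zero_of_mul h1
    obtain ⟨r1, r2, r3, r4⟩ := hG.2.1 _ h2
    have h4 : (Ld η s ζ).1 = ζ.1 := rfl
    rw [h4] at r1 r2
    have hpos : 0 < ζ.1 := by linarith
    obtain ⟨-, -, h5⟩ := hA6 η s ζ hpos.ne'
    rw [hcp0 ζ hpos.ne'] at h3
    have h6 : ‖ζ.1⁻¹ • ζ.2.1‖ < 1 := by
      by_contra hcon
      exact h3 (hφ.2.1 _ (not_lt.1 hcon))
    rw [norm_smul, norm_inv, Real.norm_eq_abs, abs_of_pos hpos, inv_mul_lt_iff₀ hpos,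
      mul_one] at h6
    refine ⟨r1, r2, ?_, ?_⟩
    · nlinarith
    · rw [h5, abs_mul, abs_of_pos hs2] at r4
      rw [mul_inv, ← mul_assoc, ← div_eq_mul_inv, le_div_iff₀ hs2, mul_comm]
      exact r4
  · -- the class inequality
    intro φ' hφ' η' s' r z₀' hs' hs'1 hr hrR
    let Φ : E m → ℂ := fun u => φ' u * φ (s' • u + η')
    let Φ₁ : E m → ℂ := fun u => (((2 ^ L : ℝ)⁻¹ : ℝ) : ℂ) * (φ' u * φ (s' • u + η'))
    have hΦ₁ : Φ₁ ∈ Bp m L := bump_mul hφ hφ' η' hs' hs'1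
    have hΦs : ContDiff ℝ (⊤ : ℕ∞) Φ :=
      hφ'.1.mul (hφ.1.comp ((contDiff_const_smul s').add contDiff_const))
    have hss : 0 < s * s' := by positivity
    let H₂ : Z m → ℂ := fun ζ => cp Φ (η + s • η') (s * s') ζ * G ζ
    have hH₂ : TC H₂ := hCPS m Φ _ _ G hΦs hss hG.1 hquart
    obtain ⟨-, hS2⟩ := hSCL m η s H₂ hs hH₂
    -- the center
    obtain ⟨z₀, hz₀⟩ : ∃ z₀ : Z m, Lo η s z₀ = z₀' := by
      refine ⟨Lo (-(s⁻¹ • η)) s⁻¹ z₀', ?_⟩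
      rw [(hA4 _ _ _ _ _).1, neg_add_cancel, inv_mul_cancel₀ hs.ne']
      exact (hA5 z₀').1
    have hset : ∀ z, Lo η s z ∈ pl η' s' r z₀' ↔ z ∈ pl (η + s • η') (s * s') r z₀ := by
      intro z
      unfold pl
      rw [mem_ofPred_eq, mem_ofPred_eq, ← hz₀, ← (hA1 η s z z₀).2.1, (hA4 _ _ _ _ _).1]
    -- the multipliers
    have hmult : ∀ z, TP φ' η' s' G' (Lo η s z) =
        ((2 ^ L : ℝ) : ℂ) * TP Φ₁ (η + s • η') (s * s') G z := by
      intro z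
      have h1 : (fun ζ => cp φ' η' s' ζ * G' ζ) = fun ζ => c * H₂ (Ld η s ζ) := by
        funext ζ
        change cp φ' η' s' ζ * (c * (cp φ η s (Ld η s ζ) * G (Ld η s ζ))) =
          c * (cp Φ (η + s • η') (s * s') (Ld η s ζ) * G (Ld η s ζ))
        by_cases hz : G (Ld η s ζ) = 0
        · rw [hz]
          ring
        · have h2 := hquart _ hz
          have h3 : (Ld η s ζ).1 = ζ.1 := rfl
          rw [h3] at h2
          have h4 : ζ.1 ≠ 0 := by linarith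
          rw [hcp ζ h4, hcp0 ζ h4]
          have h5 : cp φ' η' s' ζ = φ' (s'⁻¹ • (ζ.1⁻¹ • ζ.2.1 - η')) := rfl
          have h6 : Φ (s'⁻¹ • (ζ.1⁻¹ • ζ.2.1 - η')) =
              φ' (s'⁻¹ • (ζ.1⁻¹ • ζ.2.1 - η')) * φ (ζ.1⁻¹ • ζ.2.1) := by
            change φ' _ * φ (s' • (s'⁻¹ • (ζ.1⁻¹ • ζ.2.1 - η')) + η') = _
            rw [smul_smul, mul_inv_cancel₀ hs'.ne', one_smul, sub_add_cancel]
          rw [h5, h6]
          ring
      have h2 : H₂ = fun ζ => ((2 ^ L : ℝ) : ℂ) * (cp Φ₁ (η + s • η') (s * s') ζ * G ζ) := by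
        funext ζ
        change φ' _ * φ _ * G ζ = ((2 ^ L : ℝ) : ℂ) *
          ((((2 ^ L : ℝ)⁻¹ : ℝ) : ℂ) * (φ' _ * φ _) * G ζ)
        have h3 : ((2 ^ L : ℝ) : ℂ) * (((2 ^ L : ℝ)⁻¹ : ℝ) : ℂ) = 1 := by
          rw [← Complex.ofReal_mul, mul_inv_cancel₀ (by positivity), Complex.ofReal_one]
        linear_combination (-(φ' _ * φ _ * G ζ)) * h3
      unfold TP
      rw [h1, TF_const_mul, ← hS2 z, h2, TF_const_mul]
    -- change of variables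
    have hmeas : MeasurableSet (pl η' s' r z₀') := by
      have hc : Continuous (Lo η' s' : Z m → Z m) := (hLOI m η' s' hs').2.2.2.2.1.continuous
      exact (isClosed_le (hc.comp (continuous_id.sub continuous_const)).norm
        continuous_const).measurableSet
    have hmeas2 : MeasurableSet (pl (η + s • η') (s * s') r z₀) := by
      have hc : Continuous (Lo (η + s • η') (s * s') : Z m → Z m) :=
        (hLOI m _ _ hss).2.2.2.2.1.continuous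
      exact (isClosed_le (hc.comp (continuous_id.sub continuous_const)).norm
        continuous_const).measurableSet
    have hcv : ∫⁻ z in pl η' s' r z₀', ‖TP φ' η' s' G' z‖ₑ ^ 2 =
        ENNReal.ofReal (s ^ (m + 2)) * (ENNReal.ofReal ((2 ^ L) ^ 2) *
          ∫⁻ z in pl (η + s • η') (s * s') r z₀, ‖TP Φ₁ (η + s • η') (s * s') G z‖ₑ ^ 2) := by
      rw [← lintegral_indicator hmeas, ← lintegral_indicator hmeas2]
      have h1 := hI1 ((pl η' s' r z₀').indicator fun z => ‖TP φ' η' s' G' z‖ₑ ^ 2)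
      have h2 : ENNReal.ofReal (s ^ (m + 2)) * ENNReal.ofReal ((s⁻¹) ^ (m + 2)) = 1 := by
        rw [← ENNReal.ofReal_mul (by positivity), ← mul_pow, mul_inv_cancel₀ hs.ne', one_pow,
          ENNReal.ofReal_one]
      have h3 : ∫⁻ z, (pl η' s' r z₀').indicator (fun z => ‖TP φ' η' s' G' z‖ₑ ^ 2) z =
          ENNReal.ofReal (s ^ (m + 2)) * ∫⁻ z, (pl η' s' r z₀').indicator
            (fun z => ‖TP φ' η' s' G' z‖ₑ ^ 2) (Lo η s z) := by
        rw [h1, ← mul_assoc, h2, one_mul]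
      rw [h3]
      congr 1
      rw [← lintegral_const_mul' _ _ ENNReal.ofReal_ne_top]
      congr 1
      funext z
      by_cases hz : z ∈ pl (η + s • η') (s * s') r z₀
      · rw [indicator_of_mem ((hset z).2 hz), indicator_of_mem hz, hmult z, enorm_mul, mul_pow]
        congr 1
        rw [← ofReal_norm, ← ENNReal.ofReal_pow (norm_nonneg _), Complex.norm_real,
          Real.norm_eq_abs, abs_of_pos (by positivity)]
      · rw [indicator_of_notMem (fun h => hz ((hset z).1 h)), indicator_of_notMem hz, mul_zero]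
    rw [hcv]
    have hcls := hG.2.2 Φ₁ hΦ₁ (η + s • η') (s * s') r z₀ hss
      (by nlinarith) hr (by rw [mul_pow, ← mul_assoc]; exact hrR)
    have hrp : 0 < r := by linarith
    calc ENNReal.ofReal (s ^ (m + 2)) * (ENNReal.ofReal ((2 ^ L) ^ 2) *
          ∫⁻ z in pl (η + s • η') (s * s') r z₀, ‖TP Φ₁ (η + s • η') (s * s') G z‖ₑ ^ 2)
        ≤ ENNReal.ofReal (s ^ (m + 2)) * (ENNReal.ofReal ((2 ^ L) ^ 2) *
          ENNReal.ofReal (A ^ 2 * (R * (s * s') ^ 2 / r) ^ m * (r / (s * s')) ^ (m + 2))) := by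
          gcongr
      _ = ENNReal.ofReal ((2 ^ L * A) ^ 2 * (R * s ^ 2 * s' ^ 2 / r) ^ m *
            (r / s') ^ (m + 2)) := by
          rw [← ENNReal.ofReal_mul (by positivity), ← ENNReal.ofReal_mul (by positivity)]
          congr 1
          have h1 : (r / s') ^ (m + 2) = s ^ (m + 2) * (r / (s * s')) ^ (m + 2) := by
            rw [← mul_pow]
            congr 1
            field_simp
          have h2 : R * (s * s') ^ 2 / r = R * s ^ 2 * s' ^ 2 / r := by ring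
          rw [h1, h2]
          ring
  · intro z
    change TF (fun ζ => c * H (Ld η s ζ)) (Lo η s z) = TF H z
    rw [TF_const_mul, hH2 z]
  · have h1 : (fun ζ => ‖G' ζ‖ ^ 2) = fun ζ => (s ^ (m + 2)) ^ 2 *
        (fun ζ => ‖H ζ‖ ^ 2) (Ld η s ζ) := by
      funext ζ
      change ‖c * H (Ld η s ζ)‖ ^ 2 = _
      rw [norm_mul, mul_pow]
      congr 2
      change ‖((s ^ (m + 2) : ℝ) : ℂ)‖ = _
      rw [Complex.norm_real, Real.norm_eq_abs, abs_of_pos (by positivity)]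
    rw [h1, integral_const_mul, hI4 (fun ζ => ‖H ζ‖ ^ 2)]
    have h2 : (s ^ (m + 2)) * (s⁻¹) ^ (m + 2) = 1 := by
      rw [← mul_pow, mul_inv_cancel₀ hs.ne', one_pow]
    calc (s ^ (m + 2)) ^ 2 * ((s⁻¹) ^ (m + 2) * ∫ ζ, ‖H ζ‖ ^ 2)
        = s ^ (m + 2) * ((s ^ (m + 2)) * (s⁻¹) ^ (m + 2)) * ∫ ζ, ‖H ζ‖ ^ 2 := by ring
      _ = s ^ (m + 2) * ∫ ζ, ‖H ζ‖ ^ 2 := by rw [h2, mul_one]

theorem cls_const_mul {L : ℕ} {κ R A : ℝ} {G : Z m → ℂ} {c : ℝ} (hc : 0 < c)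
    (h : Cls L κ R A G) : Cls L κ R (c * A) (fun ζ => (c : ℂ) * G ζ) := by
  refine ⟨TC_const_mul _ _ h.1, fun ζ hζ => h.2.1 ζ (right_ne_zero_of_mul hζ), ?_⟩
  intro φ hφ η s r z₀ hs hs1 hr hrR
  have h1 : ∀ z, TP φ η s (fun ζ => (c : ℂ) * G ζ) z = (c : ℂ) * TP φ η s G z := by
    intro z
    unfold TP
    rw [← TF_const_mul]
    congr 1
    funext ζ
    ring
  have h2 : ∀ z, ‖TP φ η s (fun ζ => (c : ℂ) * G ζ) z‖ₑ ^ 2 =
      ENNReal.ofReal (c ^ 2) * ‖TP φ η s G z‖ₑ ^ 2 := by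
    intro z
    rw [h1, enorm_mul, mul_pow]
    congr 1
    rw [← ofReal_norm, ← ENNReal.ofReal_pow (norm_nonneg _), Complex.norm_real,
      Real.norm_eq_abs, abs_of_pos hc]
  simp only [h2]
  rw [lintegral_const_mul' _ _ ENNReal.ofReal_ne_top]
  calc ENNReal.ofReal (c ^ 2) * ∫⁻ z in pl η s r z₀, ‖TP φ η s G z‖ₑ ^ 2
      ≤ ENNReal.ofReal (c ^ 2) *
        ENNReal.ofReal (A ^ 2 * (R * s ^ 2 / r) ^ m * (r / s) ^ (m + 2)) := by
        gcongr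
        exact h.2.2 φ hφ η s r z₀ hs hs1 hr hrR
    _ = ENNReal.ofReal ((c * A) ^ 2 * (R * s ^ 2 / r) ^ m * (r / s) ^ (m + 2)) := by
        rw [← ENNReal.ofReal_mul (by positivity)]
        congr 1
        ring

theorem pf_RSE (hLOA : T_LOA) (hLOI : T_LOI) (hSCL : T_SCL) (hCPS : T_CPS) (hPUB : T_PUB)
    (_hRSC : T_RSC) : Pool.Agent.H81.D3.T_RSE := by
  intro L β hβ
  obtain ⟨C, hC1, hCβ⟩ := hPUB 2 L β hβ
  have hC0 : 0 < C := by linarith
  refine ⟨C * 2 ^ L, one_le_mul_of_one_le_of_one_le hC1 (one_le_pow₀ (by norm_num)), ?_⟩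
  intro κ R A s η G hκ0 hκ hA hs hs1 hRs hG
  set φ : E 2 → ℂ := fun x => ((C⁻¹ : ℝ) : ℂ) * β x with hφd
  obtain ⟨h1, h2, h3⟩ := rse_explicit hLOA hLOI hSCL hCPS 2 L κ R A G φ η s hCβ hκ0 hκ hA hs hs1
    hRs hG
  have hCC : ((C : ℝ) : ℂ) * ((C⁻¹ : ℝ) : ℂ) = 1 := by
    rw [← Complex.ofReal_mul, mul_inv_cancel₀ hC0.ne', Complex.ofReal_one]
  have hcp : ∀ ζ : Z 2, cp β η s ζ = (C : ℂ) * cp φ η s ζ := by
    intro ζ
    change β _ = (C : ℂ) * (((C⁻¹ : ℝ) : ℂ) * β _)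
    rw [← mul_assoc, hCC, one_mul]
  have hRS : Pool.Agent.H81.D3.RS β η s G = fun ζ => (C : ℂ) *
      (((s ^ (2 + 2) : ℝ) : ℂ) * (cp φ η s (Ld η s ζ) * G (Ld η s ζ))) := by
    funext ζ
    change ((s ^ 4 : ℝ) : ℂ) * (cp β η s (Ld η s ζ) * G (Ld η s ζ)) = (C : ℂ) *
      (((s ^ 4 : ℝ) : ℂ) * (cp φ η s (Ld η s ζ) * G (Ld η s ζ)))
    rw [hcp]
    ring
  refine ⟨?_, fun z => ?_, ?_⟩
  · rw [hRS, mul_assoc]
    exact cls_const_mul hC0 h1
  · rw [hRS, TF_const_mul, h2 z]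
    unfold TP
    rw [← TF_const_mul]
    congr 1
    funext ζ
    rw [hcp]
    ring
  · have h4 : ∀ ζ, ‖Pool.Agent.H81.D3.RS β η s G ζ‖ ^ 2 = C ^ 2 *
        ‖((s ^ (2 + 2) : ℝ) : ℂ) * (cp φ η s (Ld η s ζ) * G (Ld η s ζ))‖ ^ 2 := by
      intro ζ
      rw [hRS]
      simp only
      rw [norm_mul, mul_pow, Complex.norm_real, Real.norm_eq_abs, sq_abs]
    have h5 : ∀ ζ, ‖cp β η s ζ * G ζ‖ ^ 2 = C ^ 2 * ‖cp φ η s ζ * G ζ‖ ^ 2 := by
      intro ζ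
      rw [hcp, mul_assoc, norm_mul, mul_pow, Complex.norm_real, Real.norm_eq_abs, sq_abs]
    simp only [h4, h5]
    rw [integral_const_mul, integral_const_mul, h3]
    ring

end Pool.Agent.H12.D3
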