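import Pool.Agent.H87.D3.Targets3

/-!
# Row SMI of the board d3h_modules: from stationary harmonic maps to the data
-/

set_option autoImplicit false

namespace Pool.Agent.H12.D3

open MeasureTheory Metric Set Filter Topology Pool.Agent.H87.SN Pool.Agent.H87.SH
open Pool.Agent.H87.AX Pool.Agent.H87.D3
open scoped ContDiff RealInnerProductSpace ENNReal

/-! ### scaling -/

section sc

variable {n m : ℕ} (v : E n → E m) (c : E n) (r : ℝ)

theorem sc_fderiv {F : Type*} [NormedAddCommGroup F] [NormedSpace ℝ F] (v : E n → F) (y : E n) :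
    fderiv ℝ (fun y => v (c + r • y)) y = r • fderiv ℝ v (c + r • y) := by
  have h1 := fderiv_comp_smul (𝕜 := ℝ) (f := fun z => v (c + z)) (x := y) r
  rw [fderiv_comp_add_left] at h1
  exact h1

theorem sc_fderiv2 (y : E n) : fderiv ℝ (fderiv ℝ (fun y => v (c + r • y))) y =
    r • r • fderiv ℝ (fderiv ℝ v) (c + r • y) := by
  have h1 : fderiv ℝ (fun y => v (c + r • y)) = r • fun y => fderiv ℝ v (c + r • y) := by
    funext y
    rw [sc_fderiv]
    rfl
  rw [h1]
  have h2 := congrFun (fderiv_const_smul_field (𝕜 := ℝ)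
    (f := fun y => fderiv ℝ v (c + r • y)) r) y
  rw [Pi.smul_apply, sc_fderiv] at h2
  exact h2

theorem sc_en (y : E n) : en (fun y => v (c + r • y)) y = r ^ 2 * en v (c + r • y) := by
  unfold en nsq
  rw [sc_fderiv, Finset.mul_sum]
  refine Finset.sum_congr rfl fun i _ => ?_
  rw [smul_apply, norm_smul, mul_pow, Real.norm_eq_abs, sq_abs]

theorem sc_lap (y : E n) : lap (fun y => v (c + r • y)) y = r ^ 2 • lap v (c + r • y) := by
  unfold lap
  rw [sc_fderiv2, Finset.smul_sum]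
  refine Finset.sum_congr rfl fun i _ => ?_
  rw [smul_apply, smul_apply,
    smul_apply, smul_apply, smul_smul, sq]

theorem sc_hsq (y : E n) : hsq (fun y => v (c + r • y)) y = (r ^ 2) ^ 2 * hsq v (c + r • y) := by
  unfold hsq
  rw [sc_fderiv2, Finset.mul_sum]
  refine Finset.sum_congr rfl fun i _ => ?_
  rw [Finset.mul_sum]
  refine Finset.sum_congr rfl fun j _ => ?_
  rw [smul_apply, smul_apply,
    smul_apply, smul_apply, smul_smul, norm_smul,
    mul_pow, Real.norm_eq_abs, sq_abs]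
  ring

variable {c r}

/-- the equivalence -/
noncomputable def scE (c : E n) {r : ℝ} (hr : 0 < r) : E n ≃ᵐ E n :=
  (Homeomorph.smulOfNeZero r hr.ne').toMeasurableEquiv.trans (MeasurableEquiv.addLeft c)

theorem sc_map (hr : 0 < r) :
    Measure.map (scE c hr) volume = ENNReal.ofReal |(r ^ n)⁻¹| • (volume : Measure (E n)) := by
  have h1 : (scE c hr : E n → E n) = (fun x => c + x) ∘ (fun y => r • y) := rfl
  rw [h1, ← Measure.map_map (measurable_const_add c) (measurable_const_smul r),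
    Measure.map_addHaar_smul volume hr.ne', Measure.map_smul, map_add_left_eq_self,
    finrank_euclideanSpace_fin]

/-- change of variables -/
theorem sc_lint (hr : 0 < r) (f : E n → ℝ≥0∞) (S : Set (E n)) :
    ENNReal.ofReal (r ^ n) * ∫⁻ y in (fun y : E n => c + r • y) ⁻¹' S, f (c + r • y) =
      ∫⁻ x in S, f x := by
  have h2 : ∫⁻ x in S, f x ∂(Measure.map (scE c hr) volume) =
      ∫⁻ y in (fun y : E n => c + r • y) ⁻¹' S, f (c + r • y) := by
    rw [MeasurableEquiv.restrict_map, lintegral_map_equiv]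
    rfl
  rw [← h2, sc_map hr, Measure.restrict_smul, lintegral_smul_measure, smul_eq_mul, ← mul_assoc,
    ← ENNReal.ofReal_mul (by positivity), abs_of_pos (by positivity), mul_inv_cancel₀
      (by positivity), ENNReal.ofReal_one, one_mul]

theorem sc_null (hr : 0 < r) {S : Set (E n)} (hS : volume S = 0) :
    volume ((fun y : E n => c + r • y) ⁻¹' S) = 0 := by
  have h1 : volume ((fun y : E n => c + r • y) ⁻¹' S) =
      Measure.map (scE c hr) volume S := by
    rw [MeasurableEquiv.map_apply]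
    rfl
  rw [h1, sc_map hr, Measure.smul_apply, hS, smul_zero]

theorem sc_int (f : E n → ℝ) (hf : ∫ x, f x = 0) :
    ∫ y : E n, f (c + r • y) = 0 := by
  have h1 := Measure.integral_comp_smul (volume : Measure (E n)) (fun z => f (c + z)) r
  rw [integral_add_left_eq_self f c, hf, smul_zero] at h1
  exact h1

end sc

/-! ### stationarity -/

theorem statF_smul {n m : ℕ} (L : E n →L[ℝ] E m) (D : E n →L[ℝ] E n) {r : ℝ} (hr : 0 < r) :
    statF (r • L) D = r ^ 3 * statF L (r⁻¹ • D) := by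
  have h1 : nsq (r • L) = r ^ 2 * nsq L := by
    unfold nsq
    rw [Finset.mul_sum]
    refine Finset.sum_congr rfl fun i _ => ?_
    rw [smul_apply, norm_smul, mul_pow, Real.norm_eq_abs, sq_abs]
  have h2 : ∀ i j : Fin n, ((r⁻¹ • D) (bv i)) j = r⁻¹ * (D (bv i)) j := by
    intro i j
    rw [smul_apply, PiLp.smul_apply, smul_eq_mul]
  have h3 : ∀ i j : Fin n, ⟪(r • L) (bv i), (r • L) (bv j)⟫ = r ^ 2 * ⟪L (bv i), L (bv j)⟫ := by
    intro i j
    rw [smul_apply, smul_apply, real_inner_smul_left, real_inner_smul_right]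
    ring
  unfold statF
  simp only [h1, h2, h3]
  rw [← Finset.mul_sum]
  have h4 : ∑ i : Fin n, ∑ j : Fin n, ⟪L (bv i), L (bv j)⟫ * (r⁻¹ * (D (bv i)) j) =
      r⁻¹ * ∑ i : Fin n, ∑ j : Fin n, ⟪L (bv i), L (bv j)⟫ * (D (bv i)) j := by
    rw [Finset.mul_sum]
    refine Finset.sum_congr rfl fun i _ => ?_
    rw [Finset.mul_sum]
    refine Finset.sum_congr rfl fun j _ => ?_
    ring
  have h5 : ∑ i : Fin n, ∑ j : Fin n, r ^ 2 * ⟪L (bv i), L (bv j)⟫ * (D (bv i)) j =
      r ^ 2 * ∑ i : Fin n, ∑ j : Fin n, ⟪L (bv i), L (bv j)⟫ * (D (bv i)) j := by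
    rw [Finset.mul_sum]
    refine Finset.sum_congr rfl fun i _ => ?_
    rw [Finset.mul_sum]
    refine Finset.sum_congr rfl fun j _ => ?_
    ring
  rw [h4, h5]
  field_simp

theorem zoom_stat {n m : ℕ} {G : E n → E n →L[ℝ] E m} (hG : Stat1 G) (c : E n) {r : ℝ}
    (hr : 0 < r) (hb : ball c (2 * r) ⊆ ball 0 2) :
    Stat1 (fun y => r • G (c + r • y)) := by
  intro X hX hXc hXs
  set e : E n ≃ₜ E n := (Homeomorph.smulOfNeZero r⁻¹ (inv_ne_zero hr.ne')).trans
    (Homeomorph.addLeft (-(r⁻¹ • c))) with he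
  have hee : ∀ x, e x = -(r⁻¹ • c) + r⁻¹ • x := fun x => rfl
  have hinv : ∀ y, -(r⁻¹ • c) + r⁻¹ • (c + r • y) = y := by
    intro y
    rw [smul_add, smul_smul, inv_mul_cancel₀ hr.ne', one_smul]
    abel
  have hinv2 : ∀ x, c + r • e x = x := by
    intro x
    rw [hee, smul_add, smul_neg, smul_smul, smul_smul, mul_inv_cancel₀ hr.ne', one_smul, one_smul]
    abel
  have h1 : ContDiff ℝ 1 (X ∘ e) := by
    have : ContDiff ℝ 1 (fun x : E n => -(r⁻¹ • c) + r⁻¹ • x) :=
      contDiff_const.add (contDiff_id.const_smul r⁻¹)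
    exact hX.comp this
  have h2 : HasCompactSupport (X ∘ e) := hXc.comp_homeomorph e
  have h3 : tsupport (X ∘ e) ⊆ ball 0 2 := by
    rw [tsupport_comp_eq_preimage X e]
    intro x hx
    apply hb
    have h4 := hXs hx
    rw [mem_ball_zero_iff] at h4
    rw [← hinv2 x, mem_ball, dist_eq_norm, add_sub_cancel_left, norm_smul,
      Real.norm_of_nonneg hr.le]
    nlinarith
  have h4 := hG (X ∘ e) h1 h2 h3
  have h5 := sc_int (c := c) (r := r) _ h4
  have h6 : ∀ y, statF (r • G (c + r • y)) (fderiv ℝ X y) =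
      r ^ 3 * statF (G (c + r • y)) (fderiv ℝ (X ∘ e) (c + r • y)) := by
    intro y
    rw [statF_smul _ _ hr]
    congr 2
    have h7 := sc_fderiv (-(r⁻¹ • c)) r⁻¹ X (c + r • y)
    rw [hinv] at h7
    exact h7.symm
  simp only [h6]
  rw [integral_const_mul, h5, mul_zero]

/-! ### the geometry of the target -/

theorem target {m : ℕ} {A : E m → E m →L[ℝ] E m →L[ℝ] E m} {CA : ℝ}
    {U : Set V} {v : V → E m}
    (hg : ∀ x ∈ U, ∀ h k l : V,
      ⟪fderiv ℝ v x h, A (v x) (fderiv ℝ v x k) (fderiv ℝ v x k)⟫ = 0 ∧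
      ‖A (v x) (fderiv ℝ v x h) (fderiv ℝ v x h)‖ ≤ CA * ‖fderiv ℝ v x h‖ ^ 2 ∧
      |⟪fderiv ℝ (fderiv ℝ v) x h h + fderiv ℝ v x k,
          A (v x) (fderiv ℝ v x l) (fderiv ℝ v x l)⟫| ≤
        CA * ‖fderiv ℝ v x h‖ ^ 2 * ‖fderiv ℝ v x l‖ ^ 2)
    (hl : ∀ x ∈ U, lap v x =
      - ∑ i : Fin (1 + 2), A (v x) (fderiv ℝ v x (bv i)) (fderiv ℝ v x (bv i))) :
    ∀ x ∈ U, (∀ h : V, ⟪fderiv ℝ v x h, lap v x⟫ = 0) ∧ ‖lap v x‖ ≤ CA * en v x ∧
      ∀ h : V, |⟪fderiv ℝ (fderiv ℝ v) x h h, lap v x⟫| ≤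
        CA * ‖fderiv ℝ v x h‖ ^ 2 * en v x := by
  intro x hx
  refine ⟨fun h => ?_, ?_, fun h => ?_⟩
  · rw [hl x hx, inner_neg_right, inner_sum, neg_eq_zero]
    exact Finset.sum_eq_zero fun i _ => (hg x hx h (bv i) 0).1
  · rw [hl x hx, norm_neg]
    refine (norm_sum_le _ _).trans ?_
    unfold en nsq
    rw [Finset.mul_sum]
    exact Finset.sum_le_sum fun i _ => (hg x hx (bv i) 0 0).2.1
  · rw [hl x hx, inner_neg_right, inner_sum, abs_neg]
    refine (Finset.abs_sum_le_sum_abs _ _).trans ?_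
    unfold en nsq
    rw [Finset.mul_sum]
    refine Finset.sum_le_sum fun i _ => ?_
    have h1 := (hg x hx h 0 (bv i)).2.2
    rw [map_zero, add_zero] at h1
    exact h1

theorem radius_le {x : V} {s : ℝ} (hb : ball x s ⊆ ball 0 2) : s ≤ 2 := by
  by_contra hs
  push Not at hs
  have he : ‖(bv 0 : V)‖ = 1 := by
    simp [bv]
  obtain ⟨t, ht1, ht2⟩ := exists_between hs
  have h1 : x + t • (bv 0 : V) ∈ ball (0 : V) 2 := by
    apply hb
    rw [mem_ball, dist_eq_norm, add_sub_cancel_left, norm_smul, he, mul_one, Real.norm_of_nonneg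
      (by linarith)]
    exact ht2
  have h2 : x - t • (bv 0 : V) ∈ ball (0 : V) 2 := by
    apply hb
    rw [mem_ball, dist_eq_norm, sub_sub_cancel_left, norm_neg, norm_smul, he, mul_one,
      Real.norm_of_nonneg (by linarith)]
    exact ht2
  rw [mem_ball_zero_iff] at h1 h2
  have h3 : ‖(x + t • (bv 0 : V)) - (x - t • (bv 0 : V))‖ ≤ _ := norm_sub_le _ _
  have h4 : (x + t • (bv 0 : V)) - (x - t • (bv 0 : V)) = (2 * t) • (bv 0 : V) := by
    rw [two_mul, add_smul]
    abel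
  rw [h4, norm_smul, he, mul_one, Real.norm_of_nonneg (by linarith)] at h3
  linarith

theorem zm_refl (c : V) (r : ℝ) (y : V) : zm c r (LinearIsometryEquiv.refl ℝ V) y = c + r • y := rfl

theorem zG_refl {m : ℕ} (c : V) (r : ℝ) (G : V → V →L[ℝ] E m) :
    zG c r (LinearIsometryEquiv.refl ℝ V) G = fun y => r • G (c + r • y) := by
  funext y
  ext h
  rfl

theorem pf_SMI (hMUF : T_MUF) (hZMU : T_ZMU) (hMNT : T_MNT) (hST1 : Pool.Agent.H87.SN.T_ST1)
    (hCL1 : Pool.Agent.H87.SN.T_CL1) (hCL2 : Pool.Agent.H87.SN.T_CL2)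
    (hCL3 : Pool.Agent.H87.SN.T_CL3) (hGE2 : Pool.Agent.H87.AX.T_GE2) : T_SMI := by
  intro m N A hN hA
  obtain ⟨CA, hCA, hg⟩ := hGE2 m N A hN hA
  refine ⟨CA, hCA, fun ε C hε hC U u G hS hU hUb hu hsing hen c hc => ?_⟩
  have hc1 : ‖c‖ ≤ 1 := by rwa [mem_closedBall_zero_iff] at hc
  have hmem : MemLp G 2 (volume.restrict (ball (0 : V) 2)) := hS.w12.memLp_deriv
  have hstat : Stat1 G := hST1 (1 + 2) m G hmem hS.stationary
  have huN := hCL1 (1 + 2) m N U u hN hU hUb hu.continuousOn hS.mem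
  have hae := hCL2 (1 + 2) m U u G hS.w12 hU hUb hu
  have hlap := hCL3 (1 + 2) m N A U u G hN hA.continuousOn hS hU hUb hu
  have htar := target (hg (1 + 2) U u hU hu huN) hlap
  have hr : (0 : ℝ) < 1 / 8 := by norm_num
  have hball : ∀ z : V, ‖z‖ ≤ 5 / 4 → ball z (1 / 2) ⊆ ball 0 2 := by
    intro z hz y hy
    rw [mem_ball, dist_eq_norm] at hy
    rw [mem_ball_zero_iff]
    have := norm_sub_norm_le y z
    linarith
  have hcb : ball c (2 * (1 / 8)) ⊆ ball (0 : V) 2 :=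
    (ball_subset_ball (by norm_num)).trans (hball c (by linarith))
  obtain ⟨z1, -, -, z4, z5, -⟩ :=
    hZMU m G c (1 / 8) (LinearIsometryEquiv.refl ℝ V) hmem hr hcb
  obtain ⟨-, -, -, u4, -, -⟩ := hMUF m G hmem
  have hzn : ∀ y : V, ‖y‖ < 2 → ‖c + (1 / 8 : ℝ) • y‖ ≤ 5 / 4 := by
    intro y hy
    refine (norm_add_le _ _).trans ?_
    rw [norm_smul, Real.norm_of_nonneg hr.le]
    linarith
  -- balls
  have hcen : ∀ (x : V) (s : ℝ), 0 < s → ball x s ⊆ ball 0 2 → ‖x‖ < 2 := by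
    intro x s hs hb
    have := hb (mem_ball_self hs)
    rwa [mem_ball_zero_iff] at this
  have hmr : ∀ (x : V) (s : ℝ), 0 < s → ball x s ⊆ ball 0 2 →
      (mu (zG c (1 / 8) (LinearIsometryEquiv.refl ℝ V) G)).real (ball x s) =
        8 * (mu G).real (ball (c + (1 / 8 : ℝ) • x) (1 / 8 * s)) := by
    intro x s hs hb
    have h1 := z5 x s hs hb
    unfold th at h1
    rw [zm_refl] at h1
    rw [div_eq_div_iff hs.ne' (by positivity)] at h1
    have h2 : (mu (zG c (1 / 8) (LinearIsometryEquiv.refl ℝ V) G)).real (ball x s) * s =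
        8 * (mu G).real (ball (c + (1 / 8 : ℝ) • x) (1 / 8 * s)) * s := by linarith
    exact mul_right_cancel₀ hs.ne' h2
  have hopn : IsOpen (ball (0 : V) 2 ∩ zm c (1 / 8) (LinearIsometryEquiv.refl ℝ V) ⁻¹' U) := by
    have h1 : Continuous (zm c (1 / 8) (LinearIsometryEquiv.refl ℝ V)) := by
      have : zm c (1 / 8) (LinearIsometryEquiv.refl ℝ V) = fun y => c + (1 / 8 : ℝ) • y := rfl
      rw [this]
      fun_prop
    exact isOpen_ball.inter (hU.preimage h1)
  refine ⟨⟨⟨z1, ?_, ?_⟩, hopn, inter_subset_left, ?_, ?_, ?_, ?_, ?_, ?_⟩, ?_⟩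
  · -- stationarity
    rw [zG_refl]
    exact zoom_stat hstat c hr hcb
  · -- density
    intro x s hs hb
    have h2 := hcen x s hs hb
    have h3 := radius_le hb
    rw [hmr x s hs hb]
    have h4 := hball _ (hzn x h2)
    have h5 := (hMNT m G hmem hstat (c + (1 / 8 : ℝ) • x) (1 / 8 * s) (1 / 2) (by positivity)
      (by linarith) h4).2
    have h6 : 0 ≤ ∫ y in ball (c + (1 / 8 : ℝ) • x) (1 / 2) \ ball (c + (1 / 8 : ℝ) • x) (1 / 8 * s),
        (‖y - (c + (1 / 8 : ℝ) • x)‖ ^ 3)⁻¹ * ‖G y (y - (c + (1 / 8 : ℝ) • x))‖ ^ 2 :=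
      integral_nonneg fun y => by positivity
    have h7 : th G (c + (1 / 8 : ℝ) • x) (1 / 2) ≤ 2 * C := by
      unfold th
      rw [(u4 _ isOpen_ball.measurableSet h4).2]
      have h8 : ∫ y in ball (c + (1 / 8 : ℝ) • x) (1 / 2), nsq (G y) ≤
          ∫ y in ball (0 : V) 2, nsq (G y) :=
        setIntegral_mono_set (u4 _ isOpen_ball.measurableSet subset_rfl).1
          (Filter.Eventually.of_forall fun y => Finset.sum_nonneg fun i _ => sq_nonneg _)
          (Filter.Eventually.of_forall fun y hy => h4 hy)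
      linarith
    have h9 : th G (c + (1 / 8 : ℝ) • x) (1 / 8 * s) ≤ 2 * C := by linarith
    unfold th at h9
    rw [div_le_iff₀ (by positivity)] at h9
    nlinarith
  · -- smoothness
    have h1 : ContDiff ℝ ∞ (fun y : V => c + (1 / 8 : ℝ) • y) :=
      contDiff_const.add (contDiff_id.const_smul (1 / 8 : ℝ))
    exact hu.comp h1.contDiffOn fun y hy => hy.2
  · -- almost everywhere
    rw [ae_restrict_iff' hU.measurableSet] at hae
    rw [ae_restrict_iff' hopn.measurableSet, zG_refl]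
    have h1 := sc_null (c := c) hr (ae_iff.1 hae)
    refine measure_mono_null ?_ h1
    intro y hy h2
    apply hy
    intro h3
    have h4 : (1 / 8 : ℝ) • G (c + (1 / 8 : ℝ) • y) = (1 / 8 : ℝ) • fderiv ℝ u (c + (1 / 8 : ℝ) • y) := by
      rw [h2 h3.2]
    have h5 := sc_fderiv c (1 / 8) u y
    exact h4.trans h5.symm
  · -- orthogonality
    intro y hy h
    have h1 := sc_fderiv c (1 / 8) u y
    have h2 := sc_lap u c (1 / 8) y
    have h3 := (htar _ hy.2).1 h
    rw [zm_refl] at h3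
    change ⟪fderiv ℝ (fun y => u (c + (1 / 8 : ℝ) • y)) y h,
      lap (fun y => u (c + (1 / 8 : ℝ) • y)) y⟫ = 0
    rw [h1, h2, smul_apply, real_inner_smul_left, real_inner_smul_right, h3, mul_zero, mul_zero]
  · intro y hy
    have h2 := sc_lap u c (1 / 8) y
    have h3 := (htar _ hy.2).2.1
    rw [zm_refl] at h3
    change ‖lap (fun y => u (c + (1 / 8 : ℝ) • y)) y‖ ≤
      CA * en (fun y => u (c + (1 / 8 : ℝ) • y)) y
    rw [h2, sc_en u c (1 / 8) y, norm_smul, Real.norm_of_nonneg (by positivity)]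
    nlinarith
  · intro y hy h
    have h1 := sc_fderiv c (1 / 8) u y
    have h2 := sc_lap u c (1 / 8) y
    have h3 := (htar _ hy.2).2.2 h
    rw [zm_refl] at h3
    change |⟪fderiv ℝ (fderiv ℝ (fun y => u (c + (1 / 8 : ℝ) • y))) y h h,
      lap (fun y => u (c + (1 / 8 : ℝ) • y)) y⟫| ≤
      CA * ‖fderiv ℝ (fun y => u (c + (1 / 8 : ℝ) • y)) y h‖ ^ 2 *
        en (fun y => u (c + (1 / 8 : ℝ) • y)) y
    rw [h1, h2, sc_fderiv2, sc_en u c (1 / 8) y]
    simp only [smul_apply]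
    rw [real_inner_smul_left, real_inner_smul_left, real_inner_smul_right, norm_smul,
      Real.norm_of_nonneg hr.le, abs_mul, abs_mul, abs_mul, abs_of_pos hr,
      abs_of_pos (by positivity : (0 : ℝ) < (1 / 8) ^ 2)]
    nlinarith
  · -- singular points
    intro y hy hyU s hs hb
    rw [hmr y s hs hb]
    have h1 : c + (1 / 8 : ℝ) • y ∉ U := fun h => hyU ⟨hy, h⟩
    have h2 := hcen y s hs hb
    have h3 := radius_le hb
    have h4 : ball (c + (1 / 8 : ℝ) • y) (1 / 8 * s) ⊆ ball 0 2 :=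
      (ball_subset_ball (by linarith)).trans (hball _ (hzn y h2))
    have h5 : c + (1 / 8 : ℝ) • y ∈ ball (0 : V) 2 := h4 (mem_ball_self (by positivity))
    have h6 := hsing _ h5 h1 (1 / 8 * s) (by positivity) h4
    rw [(u4 _ isOpen_ball.measurableSet h4).2]
    linarith
  · -- the integral of the Hessian
    change hInt u (ball c (1 / 8) ∩ U) ≤ hInt (fun y => u (c + (1 / 8 : ℝ) • y)) (ball 0 1)
    unfold hInt
    rw [← sc_lint (c := c) hr (fun x => ENNReal.ofReal (Real.sqrt (hsq u x))) (ball c (1 / 8) ∩ U),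
      ← lintegral_const_mul' _ _ ENNReal.ofReal_ne_top]
    have hsub : (fun y : V => c + (1 / 8 : ℝ) • y) ⁻¹' (ball c (1 / 8) ∩ U) ⊆ ball 0 1 := by
      intro y hy
      have h1 := hy.1
      rw [mem_ball, dist_eq_norm, add_sub_cancel_left, norm_smul, Real.norm_of_nonneg hr.le] at h1
      rw [mem_ball_zero_iff]
      linarith
    refine (lintegral_mono_set hsub).trans (lintegral_mono fun y => ?_)
    rw [← ENNReal.ofReal_mul (by positivity)]
    apply ENNReal.ofReal_le_ofReal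
    rw [sc_hsq, Real.sqrt_mul (by positivity), Real.sqrt_sq (by positivity)]
    have h1 := Real.sqrt_nonneg (hsq u (c + (1 / 8 : ℝ) • y))
    have h2 : ((1 / 8 : ℝ)) ^ (1 + 2) ≤ (1 / 8) ^ 2 := by norm_num
    exact mul_le_mul_of_nonneg_right h2 h1

end Pool.Agent.H12.D3
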